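import Mathlib

set_option autoImplicit false

namespace Pool.Agent.Results.MP_716318_co.Disproof

open Finset

def col (x : Fin 7) : ℕ := if x.val < 3 then 1 else if x.val < 6 then 3 else 20

def F0 : Finset (Finset (Fin 7)) :=
  (powersetCard 4 univ).filter (fun S => ∑ x ∈ S, col x = 8)

lemma mem_F0 : ∀ a b : Fin 7, a ≠ b → ∀ c : Fin 7, a ≠ c → b ≠ c → ∀ d : Fin 7,
    a ≠ d → b ≠ d → c ≠ d → col a + col b + col c + col d = 8 → ({a, b, c, d} : Finset _) ∈ F0 := by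
  intro a b hab c hac hbc d had hbd hcd h
  unfold F0
  rw [mem_filter, mem_powersetCard]
  refine ⟨⟨subset_univ _, card_eq_four.mpr ⟨a, b, c, d, hab, hac, had, hbc, hbd, hcd, rfl⟩⟩, ?_⟩
  rw [sum_insert (by simp [hab, hac, had]), sum_insert (by simp [hbc, hbd]),
    sum_insert (by simp [hcd]), sum_singleton]
  omega

set_option synthInstance.maxSize 2000 in
lemma main : ∀ a b : Fin 7, a ≠ b → ∀ c : Fin 7, a ≠ c ∧ b ≠ c → ∀ d : Fin 7,
    a ≠ d ∧ b ≠ d ∧ c ≠ d → ∀ e : Fin 7, a ≠ e ∧ b ≠ e ∧ c ≠ e ∧ d ≠ e →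
    ∀ f : Fin 7, a ≠ f ∧ b ≠ f ∧ c ≠ f ∧ d ≠ f ∧ e ≠ f →
    ∀ g : Fin 7, a ≠ g ∧ b ≠ g ∧ c ≠ g ∧ d ≠ g ∧ e ≠ g ∧ f ≠ g →
    col a + col b + col c + col d = 8 ∨ col a + col b + col d + col e = 8 ∨
    col a + col b + col e + col f = 8 ∨ col a + col b + col f + col g = 8 ∨
    col b + col c + col d + col e = 8 ∨ col b + col c + col e + col f = 8 ∨
    col b + col c + col f + col g = 8 ∨ col c + col d + col e + col f = 8 ∨
    col c + col d + col f + col g = 8 ∨ col d + col e + col f + col g = 8 := by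
  decide +kernel

theorem result :
    ∃ n : ℕ, 7 ≤ n ∧ ∃ F : Finset (Finset (Fin n)), (∀ S ∈ F, S.card = 4) ∧
      F.card < (n - 2).choose 2 ∧
      ∀ v : Equiv.Perm (Fin n), ∃ i i' j j' : Fin n, i'.val = i.val + 1 ∧ j'.val = j.val + 1 ∧
        i'.val < j.val ∧ ({v i, v i', v j, v j'} : Finset (Fin n)) ∈ F := by
  refine ⟨7, le_rfl, F0, fun S hS => (mem_powersetCard.mp (mem_filter.mp hS).1).2,
    by decide +kernel, fun v => ?_⟩
  have ne : ∀ i j : Fin 7, i ≠ j → v i ≠ v j := fun i j h => v.injective.ne h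
  have h := main (v 0) (v 1) (ne _ _ (by decide)) (v 2) (by refine ⟨?_, ?_⟩ <;> exact ne _ _ (by decide))
    (v 3) (by refine ⟨?_, ?_, ?_⟩ <;> exact ne _ _ (by decide))
    (v 4) (by refine ⟨?_, ?_, ?_, ?_⟩ <;> exact ne _ _ (by decide))
    (v 5) (by refine ⟨?_, ?_, ?_, ?_, ?_⟩ <;> exact ne _ _ (by decide))
    (v 6) (by refine ⟨?_, ?_, ?_, ?_, ?_, ?_⟩ <;> exact ne _ _ (by decide))
  have g : ∀ i i' j j' : Fin 7, i'.val = i.val + 1 → j'.val = j.val + 1 → i'.val < j.val →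
      col (v i) + col (v i') + col (v j) + col (v j') = 8 →
      ∃ i i' j j' : Fin 7, i'.val = i.val + 1 ∧ j'.val = j.val + 1 ∧
        i'.val < j.val ∧ ({v i, v i', v j, v j'} : Finset (Fin 7)) ∈ F0 := by
    intro i i' j j' h1 h2 h3 h4
    refine ⟨i, i', j, j', h1, h2, h3, mem_F0 _ _ ?_ _ ?_ ?_ _ ?_ ?_ ?_ h4⟩ <;>
      exact ne _ _ (fun h => by have := congrArg Fin.val h; omega)
  rcases h with h | h | h | h | h | h | h | h | h | h <;>
    exact g _ _ _ _ rfl rfl (by decide) h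

end Pool.Agent.Results.MP_716318_co.Disproof
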